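import Pool.Agent.Y329.DL.Main

/-!
A finitely generated non-elementary group of `C^1` circle diffeomorphisms which is discrete in the
`C^1` topology but not locally discrete in the `C^1` topology.
-/

namespace Pool.Agent.Results.MP_5a4e9f_an.DiscreteNotLocallyDiscrete

open Pool.Agent.Y329.CircleGroups

/-- There is a finitely generated non-elementary group `G` of `C^1` diffeomorphisms of the circle,
acting minimally (its limit set is the whole circle), which is discrete in the `C^1` topology but is
not locally discrete in the `C^1` topology. Moreover on every proper closed arc some sequence of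
elements of `G`, none of which is the identity on the arc, converges to the identity in the `C^1`
topology on the arc. -/
theorem result : ∃ G : Subgroup HomeoC, InDiff 1 G ∧ G.FG ∧ NonElementary G ∧
    IsLimitSet G Set.univ ∧ DiscreteIn 1 G ∧ ¬ LocallyDiscreteIn 1 G ∧
    ∀ a b : ℝ, a < b → b < a + 1 → ∃ g : ℕ → HomeoC, (∀ n, g n ∈ G) ∧
      TendsToId 1 g (Set.Icc a b) ∧ ∀ n, ∃ x ∈ arc a b, g n x ≠ x :=
  Pool.Agent.Y329.DL.main_c1

end Pool.Agent.Results.MP_5a4e9f_an.DiscreteNotLocallyDiscrete
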